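import Mathlib

/-!
# The tail correlation spindle is not contained in the positive semidefinite cone for `n ≥ 6`

The point `x` with `x_{i n} = 1/2` and all other coordinates `0` satisfies every inequality that is
valid on `TCF_n` and tight at `v_0` or at `v_1`: with `δ = 2 / (n - 1)` both `δ x` and
`(1 - δ) v_1 + δ x` belong to `TCF_n`. But `a X(x) aᵗ = 5 - n` for `a = (1, …, 1, -2)`.
-/

set_option autoImplicit false

open MeasureTheory Finset

namespace Pool.Agent.Results.MP_db83b6_pr.NotPSD

/-- The index set `E_n` of the pairs `i < j`. -/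
abbrev Pairs (n : ℕ) : Type := {p : Fin n × Fin n // p.1 < p.2}

/-- The set `TCF_n` of the tail correlation functions on `n` points. -/
def TCF (n : ℕ) : Set (Pairs n → ℝ) :=
  {χ | ∃ (Ω : Type) (_ : MeasurableSpace Ω) (P : Measure Ω) (_ : IsProbabilityMeasure P)
    (A : Fin n → Set Ω), (∀ i, MeasurableSet (A i)) ∧ (∀ i, P.real (A i) = 1 / n) ∧
    ∀ p : Pairs n, χ p = n * P.real (A p.1.1 ∩ A p.1.2)}

/-- The set of the points of `P` where the linear functional `a` takes the value `β`. -/
def slice {ι : Type} [Fintype ι] (P : Set (ι → ℝ)) (a : ι → ℝ) (β : ℝ) : Set (ι → ℝ) :=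
  {x | x ∈ P ∧ ∑ i, a i * x i = β}

/-- `∑ a_i x_i ≤ β` is a facet-defining inequality of `P`: it is valid on `P`, and the points of `P`
where it is tight form a set of dimension `dim P - 1`. -/
def IsFacetInequality {ι : Type} [Fintype ι] (P : Set (ι → ℝ)) (a : ι → ℝ) (β : ℝ) : Prop :=
  (∀ x ∈ P, ∑ i, a i * x i ≤ β) ∧ (slice P a β).Nonempty ∧
    Module.finrank ℝ (vectorSpan ℝ (slice P a β)) + 1 = Module.finrank ℝ (vectorSpan ℝ P)

/-- The spindle `TCF_n(v_0, v_1)`: the solution set of the facet-defining inequalities of `TCF_n`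
of all facets that contain `v_0 = (0, …, 0)` or `v_1 = (1, …, 1)`. -/
def spindle (n : ℕ) : Set (Pairs n → ℝ) :=
  {x | ∀ (a : Pairs n → ℝ) (β : ℝ), IsFacetInequality (TCF n) a β →
    ((fun _ => 0) ∈ slice (TCF n) a β ∨ (fun _ => 1) ∈ slice (TCF n) a β) →
    ∑ p, a p * x p ≤ β}

/-- The symmetric matrix `X(x)` with diagonal entries `1` and off-diagonal entries `x_{ij}`. -/
def mat {n : ℕ} (x : Pairs n → ℝ) : Matrix (Fin n) (Fin n) ℝ :=
  fun i j => if h : i < j then x ⟨(i, j), h⟩ else if h : j < i then x ⟨(j, i), h⟩ else 1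

/-- The set `PSD_n` of the points with positive semidefinite matrix. -/
def PSD (n : ℕ) : Set (Pairs n → ℝ) := {x | (mat x).PosSemidef}

/-- the point -/
noncomputable def pt (m : ℕ) : Pairs (m + 1) → ℝ := fun p => if p.1.2 = Fin.last m then 1 / 2 else 0

/-- Finite probability spaces. -/
theorem mem_TCF_of_finite {n : ℕ} {Ω : Type} [Fintype Ω] [DecidableEq Ω] (w : Ω → ℝ)
    (hw : ∀ ω, 0 ≤ w ω) (hs : ∑ ω, w ω = 1) (A : Fin n → Finset Ω)
    (hA : ∀ i, ∑ ω ∈ A i, w ω = 1 / n) {χ : Pairs n → ℝ}
    (hχ : ∀ p : Pairs n, χ p = n * ∑ ω ∈ A p.1.1 ∩ A p.1.2, w ω) : χ ∈ TCF n := by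
  let _ : MeasurableSpace Ω := ⊤
  have : MeasurableSingletonClass Ω := ⟨fun _ => trivial⟩
  let μ : Measure Ω := ((PMF.ofFintype (fun ω => ENNReal.ofReal (w ω)) (by
    rw [← ENNReal.ofReal_sum_of_nonneg fun ω _ => hw ω, hs, ENNReal.ofReal_one]))).toMeasure
  have hμ : ∀ S : Finset Ω, μ.real (S : Set Ω) = ∑ ω ∈ S, w ω := by
    intro S
    unfold Measure.real
    simp only [μ]
    rw [PMF.toMeasure_apply_finset]
    simp only [PMF.ofFintype_apply]
    rw [← ENNReal.ofReal_sum_of_nonneg fun ω _ => hw ω, ENNReal.toReal_ofReal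
      (Finset.sum_nonneg fun ω _ => hw ω)]
  refine ⟨Ω, ⊤, μ, inferInstance, fun i => (A i : Set Ω), fun i => trivial, fun i => ?_,
    fun p => ?_⟩
  · rw [hμ, hA]
  · rw [hχ, ← hμ, Finset.coe_inter]

/-- The sum over a finset of atoms described by a predicate. -/
theorem sum_atoms {m : ℕ} (w0 c d : ℝ) (P : Fin m → Bool → Prop) [∀ j b, Decidable (P j b)]
    (S : Finset (Option (Fin m × Bool)))
    (hn : none ∉ S) (hS : ∀ j b, some (j, b) ∈ S ↔ P j b) :
    ∑ ω ∈ S, (ω.elim w0 (fun q => if q.2 then c else d) : ℝ) =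
      ∑ j, ((if P j true then c else 0) + (if P j false then d else 0)) := by
  classical
  have h1 : ∑ ω ∈ S, (ω.elim w0 (fun q => if q.2 then c else d) : ℝ) =
      ∑ ω, if ω ∈ S then (ω.elim w0 (fun q => if q.2 then c else d) : ℝ) else 0 := by
    rw [Finset.sum_ite_mem, Finset.univ_inter]
  rw [h1, Fintype.sum_option, if_neg hn, zero_add, Fintype.sum_prod_type]
  refine Finset.sum_congr rfl fun j _ => ?_
  rw [Fintype.sum_bool]
  simp [hS]

/-- Near `v_1`: events `A_n` with the atoms `r_j` and `A_i` with the atoms `r_j`, `j ≠ i`, and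
`d_i`. -/
theorem mem_near_one (m : ℕ) (hm : 1 ≤ m) :
    (fun p => (1 - 2 / (m : ℝ)) + 2 / (m : ℝ) * pt m p) ∈ TCF (m + 1) := by
  classical
  have hm' : (0 : ℝ) < m := by exact_mod_cast hm
  have hm1 : (1 : ℝ) ≤ m := by exact_mod_cast hm
  -- atoms: `(j, true) = r_j`, `(j, false) = d_j`, and `none` the rest
  let c : ℝ := 1 / ((m + 1) * m)
  let w : Option (Fin m × Bool) → ℝ := fun o =>
    o.elim (1 - 2 / (m + 1)) (fun q => if q.2 then c else c)
  let A : Fin (m + 1) → Finset (Option (Fin m × Bool)) := fun i => univ.filter fun o =>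
    o.elim False (fun q => if q.2 then q.1.castSucc ≠ i else q.1.castSucc = i)
  have hc : 0 ≤ c := by positivity
  refine mem_TCF_of_finite w ?_ ?_ A ?_ ?_
  · intro o
    rcases o with _ | ⟨j, b⟩
    · change 0 ≤ 1 - 2 / ((m : ℝ) + 1)
      rw [sub_nonneg, div_le_one (by positivity)]
      linarith
    · change 0 ≤ if b then c else c
      split_ifs <;> exact hc
  · have := sum_atoms (m := m) (1 - 2 / ((m : ℝ) + 1)) c c (fun _ _ => True) (univ.erase none)
      (by simp) (by simp)
    rw [← Finset.add_sum_erase univ w (Finset.mem_univ none), this]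
    change 1 - 2 / ((m : ℝ) + 1) + _ = 1
    simp only [if_true, Finset.sum_const, Finset.card_univ, Fintype.card_fin, nsmul_eq_mul, c]
    field_simp
    ring
  · intro i
    rw [sum_atoms _ c c (fun j b => if b then j.castSucc ≠ i else j.castSucc = i) (A i)
      (by simp [A]) (by intro j b; simp [A])]
    have : ∀ j : Fin m, ((if (if (true : Bool) = true then j.castSucc ≠ i else j.castSucc = i)
        then c else 0) + (if (if (false : Bool) = true then j.castSucc ≠ i else j.castSucc = i)
        then c else 0) : ℝ) = c := by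
      intro j
      by_cases h : j.castSucc = i <;> simp [h]
    rw [Finset.sum_congr rfl fun j _ => this j]
    simp only [Finset.sum_const, Finset.card_univ, Fintype.card_fin, nsmul_eq_mul, c]
    push_cast
    field_simp
  · rintro ⟨⟨i, l⟩, hil⟩
    simp only at hil ⊢
    rw [sum_atoms _ c c (fun j b => b = true ∧ j.castSucc ≠ i ∧ j.castSucc ≠ l) (A i ∩ A l)
      (by simp [A]) (by
        intro j b
        rw [Finset.mem_inter]
        rcases b with _ | _
        · simp only [A, Finset.mem_filter, Finset.mem_univ, true_and, Option.elim_some,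
            Bool.false_eq_true, if_false, false_and, iff_false]
          rintro ⟨h1, h2⟩
          exact hil.ne (h1.symm.trans h2)
        · simp [A])]
    obtain ⟨i', rfl⟩ : ∃ i' : Fin m, i = i'.castSucc :=
      ⟨i.castPred (ne_of_lt (lt_of_lt_of_le hil (Fin.le_last l))), by simp⟩
    by_cases hl : l = Fin.last m
    · subst hl
      have : ∀ j : Fin m, ((if ((true : Bool) = true ∧ j.castSucc ≠ i'.castSucc ∧
          j.castSucc ≠ Fin.last m) then c else 0) + (if ((false : Bool) = true ∧
          j.castSucc ≠ i'.castSucc ∧ j.castSucc ≠ Fin.last m) then c else 0) : ℝ) =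
          c - (if j = i' then c else 0) := by
        intro j
        by_cases h : j = i'
        · simp [h]
        · simp [h, (Fin.castSucc_lt_last j).ne]
      rw [Finset.sum_congr rfl fun j _ => this j, Finset.sum_sub_distrib]
      simp only [Finset.sum_const, Finset.card_univ, Fintype.card_fin, nsmul_eq_mul, c, pt,
        Finset.sum_ite_eq', Finset.mem_univ, if_true]
      push_cast
      field_simp
      ring
    · obtain ⟨l', rfl⟩ : ∃ l' : Fin m, l = l'.castSucc := ⟨l.castPred hl, by simp⟩
      have hne : i' ≠ l' := fun h => hil.ne (by rw [h])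
      have : ∀ j : Fin m, ((if ((true : Bool) = true ∧ j.castSucc ≠ i'.castSucc ∧
          j.castSucc ≠ l'.castSucc) then c else 0) + (if ((false : Bool) = true ∧
          j.castSucc ≠ i'.castSucc ∧ j.castSucc ≠ l'.castSucc) then c else 0) : ℝ) =
          c - (if j = i' then c else 0) - (if j = l' then c else 0) := by
        intro j
        by_cases h : j = i'
        · subst h
          simp [hne]
        · by_cases h2 : j = l'
          · subst h2
            simp [h]
          · simp [h, h2]
      rw [Finset.sum_congr rfl fun j _ => this j, Finset.sum_sub_distrib, Finset.sum_sub_distrib]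
      simp only [Finset.sum_const, Finset.card_univ, Fintype.card_fin, nsmul_eq_mul, c, pt,
        Finset.sum_ite_eq', Finset.mem_univ, if_true, if_neg (Fin.castSucc_lt_last l').ne]
      push_cast
      field_simp
      ring

/-- Near `v_0`: events `A_i` with the atoms `s_i`, `t_i` and `A_n` with the atoms `s_j`. -/
theorem mem_near_zero (m : ℕ) (hm : 1 ≤ m) :
    (fun p => 2 / (m : ℝ) * pt m p) ∈ TCF (m + 1) := by
  classical
  have hm' : (0 : ℝ) < m := by exact_mod_cast hm
  have hm1 : (1 : ℝ) ≤ m := by exact_mod_cast hm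
  -- atoms: `(j, true) = s_j`, `(j, false) = t_j`, and `none` the rest
  let c : ℝ := 1 / ((m + 1) * m)
  let d : ℝ := 1 / (m + 1) - 1 / ((m + 1) * m)
  let w : Option (Fin m × Bool) → ℝ := fun o =>
    o.elim (1 / (m + 1)) (fun q => if q.2 then c else d)
  let A : Fin (m + 1) → Finset (Option (Fin m × Bool)) := fun i => univ.filter fun o =>
    o.elim False (fun q => q.1.castSucc = i ∨ (q.2 = true ∧ i = Fin.last m))
  have hc : 0 ≤ c := by positivity
  have hd : 0 ≤ d := by
    simp only [d]
    rw [sub_nonneg]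
    apply one_div_le_one_div_of_le (by positivity)
    nlinarith
  refine mem_TCF_of_finite w ?_ ?_ A ?_ ?_
  · intro o
    rcases o with _ | ⟨j, b⟩
    · change 0 ≤ 1 / ((m : ℝ) + 1)
      positivity
    · change 0 ≤ if b then c else d
      split_ifs
      · exact hc
      · exact hd
  · have := sum_atoms (m := m) (1 / ((m : ℝ) + 1)) c d (fun _ _ => True) (univ.erase none)
      (by simp) (by simp)
    rw [← Finset.add_sum_erase univ w (Finset.mem_univ none), this]
    change 1 / ((m : ℝ) + 1) + _ = 1
    simp only [if_true, Finset.sum_const, Finset.card_univ, Fintype.card_fin, nsmul_eq_mul, c, d]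
    field_simp
    ring
  · intro i
    rw [sum_atoms _ c d (fun j b => j.castSucc = i ∨ (b = true ∧ i = Fin.last m)) (A i)
      (by simp [A]) (by intro j b; simp [A])]
    by_cases hi : i = Fin.last m
    · subst hi
      have : ∀ j : Fin m, ((if (j.castSucc = Fin.last m ∨ ((true : Bool) = true ∧
          Fin.last m = Fin.last m)) then c else 0) + (if (j.castSucc = Fin.last m ∨
          ((false : Bool) = true ∧ Fin.last m = Fin.last m)) then d else 0) : ℝ) = c := by
        intro j
        simp [(Fin.castSucc_lt_last j).ne]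
      rw [Finset.sum_congr rfl fun j _ => this j]
      simp only [Finset.sum_const, Finset.card_univ, Fintype.card_fin, nsmul_eq_mul, c]
      push_cast
      field_simp
    · obtain ⟨i', rfl⟩ : ∃ i' : Fin m, i = i'.castSucc := ⟨i.castPred hi, by simp⟩
      have : ∀ j : Fin m, ((if (j.castSucc = i'.castSucc ∨ ((true : Bool) = true ∧
          i'.castSucc = Fin.last m)) then c else 0) + (if (j.castSucc = i'.castSucc ∨
          ((false : Bool) = true ∧ i'.castSucc = Fin.last m)) then d else 0) : ℝ) =
          (if j = i' then c + d else 0) := by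
        intro j
        by_cases h : j = i'
        · simp [h]
        · simp [h, (Fin.castSucc_lt_last i').ne]
      rw [Finset.sum_congr rfl fun j _ => this j]
      simp only [Finset.sum_ite_eq', Finset.mem_univ, if_true, c, d]
      push_cast
      ring
  · rintro ⟨⟨i, l⟩, hil⟩
    simp only at hil ⊢
    obtain ⟨i', rfl⟩ : ∃ i' : Fin m, i = i'.castSucc :=
      ⟨i.castPred (ne_of_lt (lt_of_lt_of_le hil (Fin.le_last l))), by simp⟩
    rw [sum_atoms _ c d (fun j b => j = i' ∧ b = true ∧ l = Fin.last m) (A i'.castSucc ∩ A l)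
      (by simp [A]) (by
        intro j b
        rw [Finset.mem_inter]
        simp only [A, Finset.mem_filter, Finset.mem_univ, true_and, Option.elim_some,
          (Fin.castSucc_lt_last i').ne, and_false, or_false, Fin.castSucc_inj]
        constructor
        · rintro ⟨rfl, h2 | h2⟩
          · exact absurd h2 hil.ne
          · exact ⟨rfl, h2⟩
        · rintro ⟨rfl, h2⟩
          exact ⟨rfl, Or.inr h2⟩)]
    by_cases hl : l = Fin.last m
    · subst hl
      have : ∀ j : Fin m, ((if (j = i' ∧ (true : Bool) = true ∧ Fin.last m = Fin.last m)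
          then c else 0) + (if (j = i' ∧ (false : Bool) = true ∧ Fin.last m = Fin.last m)
          then d else 0) : ℝ) = (if j = i' then c else 0) := by
        intro j
        by_cases h : j = i' <;> simp [h]
      rw [Finset.sum_congr rfl fun j _ => this j]
      simp only [Finset.sum_ite_eq', Finset.mem_univ, if_true, c, pt]
      push_cast
      field_simp
    · simp [hl, pt]

/-- The point satisfies all valid inequalities that are tight at `v_0` or `v_1`. -/
theorem pt_mem_spindle (m : ℕ) (hm : 1 ≤ m) : pt m ∈ spindle (m + 1) := by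
  have hm' : (0 : ℝ) < m := by exact_mod_cast hm
  intro a β ha ht
  rcases ht with ht | ht
  · have h1 := ha.1 _ (mem_near_zero m hm)
    have h2 := ht.2
    have h3 : ∑ p, a p * (2 / (m : ℝ) * pt m p) = 2 / (m : ℝ) * ∑ p, a p * pt m p := by
      rw [Finset.mul_sum]
      exact Finset.sum_congr rfl fun p _ => by ring
    have h4 : β = 0 := by rw [← h2]; simp
    rw [h3, h4] at h1
    rw [h4]
    by_contra hcon
    push Not at hcon
    have : 0 < 2 / (m : ℝ) * ∑ p, a p * pt m p := by positivity
    linarith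
  · have h1 := ha.1 _ (mem_near_one m hm)
    have h2 := ht.2
    have h3 : ∑ p, a p * (1 - 2 / (m : ℝ) + 2 / (m : ℝ) * pt m p) =
        (1 - 2 / (m : ℝ)) * ∑ p, a p * 1 + 2 / (m : ℝ) * ∑ p, a p * pt m p := by
      rw [Finset.mul_sum, Finset.mul_sum, ← Finset.sum_add_distrib]
      exact Finset.sum_congr rfl fun p _ => by ring
    rw [h3, h2] at h1
    have h4 : 2 / (m : ℝ) * ∑ p, a p * pt m p ≤ 2 / (m : ℝ) * β := by linarith
    exact le_of_mul_le_mul_left h4 (by positivity)

theorem mat_pt (m : ℕ) :
    (∀ i j : Fin m, mat (pt m) i.castSucc j.castSucc = if j = i then 1 else 0) ∧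
    (∀ i : Fin m, mat (pt m) i.castSucc (Fin.last m) = 1 / 2) ∧
    (∀ i : Fin m, mat (pt m) (Fin.last m) i.castSucc = 1 / 2) ∧
    mat (pt m) (Fin.last m) (Fin.last m) = 1 := by
  refine ⟨fun i j => ?_, fun i => ?_, fun i => ?_, ?_⟩
  · unfold mat
    by_cases h : j = i
    · subst h
      simp
    · rw [if_neg h]
      rcases lt_or_gt_of_ne h with h1 | h1
      · have h2 : j.castSucc < i.castSucc := h1
        rw [dif_neg h2.not_gt, dif_pos h2]
        unfold pt
        rw [if_neg (Fin.castSucc_lt_last i).ne]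
      · have h2 : i.castSucc < j.castSucc := h1
        rw [dif_pos h2]
        unfold pt
        rw [if_neg (Fin.castSucc_lt_last j).ne]
  · unfold mat
    rw [dif_pos (Fin.castSucc_lt_last i)]
    unfold pt
    rw [if_pos rfl]
  · unfold mat
    rw [dif_neg (Fin.castSucc_lt_last i).not_gt, dif_pos (Fin.castSucc_lt_last i)]
    unfold pt
    rw [if_pos rfl]
  · unfold mat
    simp

theorem pt_not_PSD (m : ℕ) (hm : 5 ≤ m) : pt m ∉ PSD (m + 1) := by
  intro h
  obtain ⟨h1, h2, h3, h4⟩ := mat_pt m
  let a : Fin (m + 1) → ℝ := fun i => if i = Fin.last m then -2 else 1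
  have ha1 : ∀ i : Fin m, a i.castSucc = 1 := fun i => if_neg (Fin.castSucc_lt_last i).ne
  have ha2 : a (Fin.last m) = -2 := if_pos rfl
  have hpos : 0 ≤ a ⬝ᵥ (mat (pt m)).mulVec a := by
    have := Matrix.PosSemidef.dotProduct_mulVec_nonneg h a
    simpa using this
  have hr1 : ∀ i : Fin m, (mat (pt m)).mulVec a i.castSucc = 0 := by
    intro i
    simp only [Matrix.mulVec, dotProduct]
    rw [Fin.sum_univ_castSucc]
    simp only [h1, h2, ha1, ha2, mul_one, Finset.sum_ite_eq', Finset.mem_univ, if_true]
    norm_num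
  have hr2 : (mat (pt m)).mulVec a (Fin.last m) = m / 2 - 2 := by
    simp only [Matrix.mulVec, dotProduct]
    rw [Fin.sum_univ_castSucc]
    simp only [h3, h4, ha1, ha2, mul_one, Finset.sum_const, Finset.card_univ, Fintype.card_fin,
      nsmul_eq_mul]
    ring
  simp only [dotProduct] at hpos
  rw [Fin.sum_univ_castSucc] at hpos
  simp only [hr1, hr2, ha1, ha2, mul_zero, Finset.sum_const_zero] at hpos
  have : (5 : ℝ) ≤ m := by exact_mod_cast hm
  linarith

/-- **Answer to Q1** (with the known cases `2 ≤ n ≤ 6`): for every `n ≥ 6` the spindle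
`TCF_n(v_0, v_1)` is not contained in `PSD_n`. -/
theorem result (n : ℕ) (hn : 6 ≤ n) : ¬ spindle n ⊆ PSD n := by
  obtain ⟨m, rfl⟩ := Nat.exists_eq_add_of_le' (show 1 ≤ n by omega)
  intro h
  exact pt_not_PSD m (by omega) (h (pt_mem_spindle m (by omega)))

end Pool.Agent.Results.MP_db83b6_pr.NotPSD
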